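import Pool.Agent.H38.AE.Targets

/-!
# ae_modules J2: triples with a good divisor of the third entry
-/

open Finset

namespace Pool.Agent.H59.AE

open Pool.Agent.H38.AE

theorem rad_pos (n : ℕ) : 0 < rad n :=
  Finset.prod_pos fun _ hp => (Nat.prime_of_mem_primeFactors hp).pos

theorem wt_pos {q : ℕ} {R : ℝ} (hR : 0 < R) : 0 < wt q R := by
  unfold wt
  have : 0 ≤ R ^ 2 / √(q : ℝ) := by positivity
  linarith

/-- sign -/
def sg (b : Bool) : ℤ := if b then 1 else -1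

theorem sg_natAbs (x : ℤ) : x = sg (decide (0 ≤ x)) * (x.natAbs : ℤ) := by
  unfold sg
  by_cases h : 0 ≤ x
  · rw [if_pos (by simpa using h), one_mul, Int.natCast_natAbs, abs_of_nonneg h]
  · rw [if_neg (by simpa using h), Int.natCast_natAbs, abs_of_neg (not_le.1 h)]
    ring

theorem natAbs_mem {x : ℤ} {H : ℕ} (h0 : x ≠ 0) (h : |x| ≤ H) : x.natAbs ∈ Icc 1 H := by
  rw [mem_Icc]
  refine ⟨Int.natAbs_pos.2 h0, ?_⟩
  rw [← Int.natCast_natAbs] at h
  exact_mod_cast h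

/-- the relation modulo `q` -/
theorem rel {q : ℕ} {b1 b2 : Bool} {n1 n2 : ℕ}
    (h : ((sg b1 * n1 : ℤ) : ZMod q) + ((sg b2 * n2 : ℤ) : ZMod q) = 0) :
    (n1 : ZMod q) = ((if b1 = b2 then -1 else 1 : (ZMod q)ˣ) : ZMod q) * (n2 : ZMod q) := by
  unfold sg at h
  cases b1 <;> cases b2 <;> simp at h ⊢
  · linear_combination -h
  · linear_combination -h
  · linear_combination h
  · linear_combination h

theorem pf_J2 (hA : T_A) (hG : T_G) : T_J2 := by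
  classical
  intro ε hε
  obtain ⟨C1, hC1, hA1⟩ := hA (ε / 2) (by linarith)
  obtain ⟨C2, hC2, hG1⟩ := hG (ε / 2) (by linarith)
  refine ⟨4 * C1 * C2, by positivity, fun H Z hH hZ => ?_⟩
  -- choice of `q`
  have hq0 : ∀ t ∈ SE H Z, ∃ q : ℕ, 1 ≤ q ∧ (q : ℤ) ∣ t.2.2 ∧
    (rad q : ℝ) * Real.sqrt (wt q (RR t.1) * wt q (RR t.2.1)) ≤ Z := fun t ht => ht.2
  choose! Q hQ1 hQ2 hQ3 using hq0
  -- finiteness
  have hfin : (SE H Z).Finite := by
    refine Set.Finite.subset (s := ((Icc (-(H:ℤ)) H ×ˢ Icc (-(H:ℤ)) H ×ˢ Icc (-(H:ℤ)) H :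
      Finset (ℤ × ℤ × ℤ)) : Set (ℤ × ℤ × ℤ))) (Finset.finite_toSet _) ?_
    intro t ht
    obtain ⟨-, -, -, -, -, -, -, h1, h2, h3⟩ := ht.1
    simp only [coe_product, coe_Icc, Set.mem_prod, Set.mem_Icc]
    exact ⟨abs_le.1 h1, abs_le.1 h2, abs_le.1 h3⟩
  set S := hfin.toFinset with hS
  have hmem : ∀ t, t ∈ S ↔ t ∈ SE H Z := fun t => hfin.mem_toFinset
  rw [Set.ncard_eq_toFinset_card _ hfin, ← hS]
  have hQH : ∀ t ∈ S, Q t ∈ Icc 1 H := by
    intro t ht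
    have ht' := (hmem t).1 ht
    rw [mem_Icc]
    refine ⟨hQ1 t ht', ?_⟩
    obtain ⟨-, -, h0, -, -, -, -, -, -, h3⟩ := ht'.1
    have h4 := Int.le_of_dvd (abs_pos.2 h0) ((dvd_abs _ _).2 (hQ2 t ht'))
    exact_mod_cast h4.trans h3
  set Φ : ℤ × ℤ × ℤ → Bool × Bool × ℕ := fun t =>
    (decide (0 ≤ t.1), decide (0 ≤ t.2.1), Q t) with hΦ
  set T : Finset (Bool × Bool × ℕ) := univ ×ˢ univ ×ˢ Icc 1 H with hT
  have hmaps : ∀ t ∈ S, Φ t ∈ T := by
    intro t ht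
    simp only [hΦ, hT, mem_product, mem_univ, true_and]
    exact hQH t ht
  rw [card_eq_sum_card_fiberwise hmaps]
  push_cast
  -- the fibres
  have hfib : ∀ k ∈ T, ((#{t ∈ S | Φ t = k} : ℕ) : ℝ) ≤
      1 / (rad k.2.2 : ℝ) * (C2 * (H : ℝ) ^ (ε / 2) * Z) := by
    rintro ⟨b1, b2, q⟩ hk
    simp only [hT, mem_product, mem_univ, true_and, mem_Icc] at hk
    have : NeZero q := ⟨by omega⟩
    set u : (ZMod q)ˣ := if b1 = b2 then -1 else 1 with hu
    have hg := hG1 H q hH hk.2 u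
    set F := ((Finset.Icc 1 H) ×ˢ (Finset.Icc 1 H)).filter
      (fun t => ((t.1 : ℕ) : ZMod q) = u * ((t.2 : ℕ) : ZMod q) ∧ IsUnit ((t.1 : ℕ) : ZMod q))
      with hF
    set g : ℕ × ℕ → ℝ := fun t => 1 / Real.sqrt (wt q (rad t.1) * wt q (rad t.2)) with hgdef
    have hg0 : ∀ t, 0 ≤ g t := fun t => by simp only [hgdef]; positivity
    set ψ : ℤ × ℤ × ℤ → ℕ × ℕ := fun t => (t.1.natAbs, t.2.1.natAbs) with hψ
    -- description of the elements of the fibre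
    have hel : ∀ t ∈ ({t ∈ S | Φ t = (b1, b2, q)} : Finset (ℤ × ℤ × ℤ)),
        t ∈ SE H Z ∧ t.1 = sg b1 * (t.1.natAbs : ℤ) ∧ t.2.1 = sg b2 * (t.2.1.natAbs : ℤ) ∧
        Q t = q := by
      intro t ht
      rw [mem_filter] at ht
      obtain ⟨h1, h2⟩ := ht
      simp only [hΦ, Prod.mk.injEq] at h2
      refine ⟨(hmem t).1 h1, ?_, ?_, h2.2.2⟩
      · rw [← h2.1]; exact sg_natAbs t.1
      · rw [← h2.2.1]; exact sg_natAbs t.2.1
    have hinj : Set.InjOn ψ ({t ∈ S | Φ t = (b1, b2, q)} : Finset (ℤ × ℤ × ℤ)) := by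
      intro t ht s hs hts
      obtain ⟨h1, h2, h3, -⟩ := hel t (by exact_mod_cast ht)
      obtain ⟨g1, g2, g3, -⟩ := hel s (by exact_mod_cast hs)
      simp only [hψ, Prod.mk.injEq] at hts
      have e1 : t.1 = s.1 := by rw [h2, g2, hts.1]
      have e2 : t.2.1 = s.2.1 := by rw [h3, g3, hts.2]
      obtain ⟨-, -, -, -, -, -, z1, -⟩ := h1.1
      obtain ⟨-, -, -, -, -, -, z2, -⟩ := g1.1
      have e3 : t.2.2 = s.2.2 := by linarith
      exact Prod.ext e1 (Prod.ext e2 e3)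
    have hsub : ∀ t ∈ ({t ∈ S | Φ t = (b1, b2, q)} : Finset (ℤ × ℤ × ℤ)), ψ t ∈ F := by
      intro t ht
      obtain ⟨h1, h2, h3, h4⟩ := hel t ht
      obtain ⟨z1, z2, z3, c1, c2, c3, sum0, l1, l2, l3⟩ := h1.1
      rw [hF, mem_filter, mem_product]
      refine ⟨⟨natAbs_mem z1 l1, natAbs_mem z2 l2⟩, ?_, ?_⟩
      · simp only [hψ]
        refine rel (b1 := b1) (b2 := b2) ?_
        rw [← h2, ← h3]
        have e1 : ((t.2.2 : ℤ) : ZMod q) = 0 := by
          rw [ZMod.intCast_zmod_eq_zero_iff_dvd, ← h4]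
          exact hQ2 t h1
        have e2 : ((t.1 + t.2.1 + t.2.2 : ℤ) : ZMod q) = 0 := by rw [sum0]; simp
        push_cast at e2
        rwa [e1, add_zero] at e2
      · simp only [hψ]
        rw [ZMod.isUnit_iff_coprime]
        have e1 : IsCoprime t.1 (q : ℤ) := by
          refine IsCoprime.of_isCoprime_of_dvd_right c2 ?_
          rw [← h4]; exact hQ2 t h1
        have e2 := Int.isCoprime_iff_gcd_eq_one.1 e1
        rwa [Int.gcd, Int.natAbs_natCast] at e2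
    have hw : ∀ t ∈ ({t ∈ S | Φ t = (b1, b2, q)} : Finset (ℤ × ℤ × ℤ)),
        (1 : ℝ) ≤ 1 / (rad q : ℝ) * (g (ψ t) * Z) := by
      intro t ht
      obtain ⟨h1, h2, h3, h4⟩ := hel t ht
      have h5 := hQ3 t h1
      rw [h4] at h5
      have h6 : (0:ℝ) < rad q := by exact_mod_cast rad_pos q
      have h7 : 0 < Real.sqrt (wt q (RR t.1) * wt q (RR t.2.1)) := by
        refine Real.sqrt_pos.2 (mul_pos (wt_pos ?_) (wt_pos ?_))
        · unfold RR; exact_mod_cast rad_pos _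
        · unfold RR; exact_mod_cast rad_pos _
      have e : 1 / (rad q : ℝ) * (g (ψ t) * Z) =
          Z / ((rad q : ℝ) * Real.sqrt (wt q (RR t.1) * wt q (RR t.2.1))) := by
        simp only [hgdef, hψ, RR]
        rw [one_div_mul_eq_div, one_div_mul_eq_div, div_div, mul_comm]
      rw [e, one_le_div (mul_pos h6 h7)]
      exact h5
    have hr0 : (0:ℝ) ≤ 1 / (rad q : ℝ) := by positivity
    calc ((#{t ∈ S | Φ t = (b1, b2, q)} : ℕ) : ℝ)
        = ∑ t ∈ S with Φ t = (b1, b2, q), (1 : ℝ) := by simp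
      _ ≤ ∑ t ∈ S with Φ t = (b1, b2, q), 1 / (rad q : ℝ) * (g (ψ t) * Z) := sum_le_sum hw
      _ = 1 / (rad q : ℝ) * ((∑ t ∈ S with Φ t = (b1, b2, q), g (ψ t)) * Z) := by
          rw [sum_mul, mul_sum]
      _ = 1 / (rad q : ℝ) * ((∑ s ∈ image ψ {t ∈ S | Φ t = (b1, b2, q)}, g s) * Z) := by
          rw [sum_image hinj]
      _ ≤ 1 / (rad q : ℝ) * ((∑ s ∈ F, g s) * Z) := by
          refine mul_le_mul_of_nonneg_left (mul_le_mul_of_nonneg_right ?_ hZ) hr0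
          exact sum_le_sum_of_subset_of_nonneg (image_subset_iff.2 hsub) fun s _ _ => hg0 s
      _ ≤ 1 / (rad q : ℝ) * (C2 * (H : ℝ) ^ (ε / 2) * Z) :=
          mul_le_mul_of_nonneg_left (mul_le_mul_of_nonneg_right hg hZ) hr0
  refine (sum_le_sum hfib).trans ?_
  rw [← sum_mul, hT]
  simp only [sum_product, sum_const, card_univ, Fintype.card_bool, nsmul_eq_mul]
  have hH0 : (0:ℝ) < H := by exact_mod_cast hH
  have h1 := hA1 H hH
  have e : (H : ℝ) ^ ε = (H : ℝ) ^ (ε / 2) * (H : ℝ) ^ (ε / 2) := by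
    rw [← Real.rpow_add hH0]; congr 1; ring
  rw [e]
  have h2 : 0 ≤ C2 * (H : ℝ) ^ (ε / 2) * Z := by positivity
  have h3 := mul_le_mul_of_nonneg_right h1 h2
  push_cast
  nlinarith [h3]

end Pool.Agent.H59.AE
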